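import Pool.Agent.Helper40.EL.D2
import Pool.Agent.Helper31.EC.Dig

/-! Adding variables to labels: leaks, the criterion for double Markov labels, variables with few values. -/

namespace Pool.Agent.Helper59.LF

open Finset Filter Topology Pool.Agent.Helper69.RK Pool.Agent.Helper31.EC Pool.Agent.Helper40.EL

noncomputable section

/-- a label refined by a partition of its space -/
def fadd {F : FSp} (l : FLab F) (W : Setoid l.T.Ω) : FLab F where
  T := l.T
  p := l.p
  hn := l.hn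
  V := l.V ⊓ W

theorem fadd_leak {F : FSp} (l : FLab F) (W : Setoid l.T.Ω) (x : FL F) :
    (fadd l W).leak x ≤ l.leak x + h (fc W) (l.v ⊔ l.p.map x) := by
  have h1 : (fadd l W).leak x = I (l.v ⊔ fc W) l.p.top (l.p.map x) := rfl
  have h2 : l.leak x = I l.v l.p.top (l.p.map x) := rfl
  rw [h1, h2, I_chain]
  have h3 := I_le_h_left (fc W) l.p.top (l.v ⊔ l.p.map x)
  linarith

theorem fadd_info_ge {F : FSp} (l : FLab F) (W : Setoid l.T.Ω) : l.info ≤ (fadd l W).info := by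
  have h1 : (fadd l W).info = I (l.v ⊔ fc W) l.p.top ⊥ := rfl
  have h2 : l.info = I l.v l.p.top ⊥ := rfl
  rw [h1, h2]
  exact I_mono_left (le_sup_left.trans le_sup_left)

/-- labels refined by partitions -/
def ladd {S : Sp} (l : Lab S) (W : ∀ k, Setoid (l k).T.Ω) : Lab S := fun k => fadd (l k) (W k)

theorem DM_ladd {S : Sp} {l : Lab S} {A B : Part S} (hl : l.DM A B) (W : ∀ k, Setoid (l k).T.Ω)
    (hA : Nul S (fun k => h (fc (W k)) ((l k).v ⊔ (l k).p.map (A k))))
    (hB : Nul S (fun k => h (fc (W k)) ((l k).v ⊔ (l k).p.map (B k)))) : (ladd l W).DM A B := by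
  constructor
  · apply (hl.1.add hA).of_le (Eventually.of_forall fun k => (ladd l W k).leak_nonneg _)
    exact Eventually.of_forall fun k => fadd_leak (l k) (W k) (A k)
  · apply (hl.2.add hB).of_le (Eventually.of_forall fun k => (ladd l W k).leak_nonneg _)
    exact Eventually.of_forall fun k => fadd_leak (l k) (W k) (B k)

/-- conditional entropies in the lattice -/
theorem h_label {F : FSp} (l : FLab F) (W : Setoid l.T.Ω) (A : Setoid F.Ω) :
    h (fc W) (l.v ⊔ l.p.map (fc A)) = l.T.e W ((l.V ⊓ Setoid.comap l.p.π A) ⊓ l.T.Z) := by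
  have h1 : l.v ⊔ l.p.map (fc A) = fc (l.V ⊓ Setoid.comap l.p.π A) := rfl
  rw [h1, h_fc]

/-- integer variables which are known up to a subexponential error on a typical event -/
theorem nul_few {S : Sp} (l : Lab S) {m : ℕ} (X : ∀ k, (l k).T.Ω → Fin m → ℤ) (B : ∀ k, Setoid (l k).T.Ω) (C : ℝ)
    (hC : 0 ≤ C) (hX : ∀ᶠ k in UF, ∀ ω i, (l k).T.μ ω ≠ 0 → |(X k ω i : ℝ)| ≤ 2 ^ (C * (S.F k).n))
    (E : ∀ k, (l k).T.Ω → Prop) (hE : Sp.Typ (S := l.sp) E) (K : ℕ → ℝ) (hK : S.Sub K)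
    (hB : ∀ᶠ k in UF, ∀ ω ω', (l k).T.μ ω ≠ 0 → (l k).T.μ ω' ≠ 0 → E k ω → E k ω' → B k ω ω' →
      ∀ i, |(X k ω i : ℝ) - X k ω' i| ≤ K k) :
    Nul S (fun k => (l k).T.e (Setoid.ker (X k)) (B k)) := by
  have h0 : Nul S (fun k => m * Real.logb 2 (K k + 2) +
      m * (C * (S.F k).n + 2) * mass (res (l k).T.μ (fun ω => ¬ E k ω)) + 1) := by
    unfold Nul
    have t1 := hK.2.const_mul (m : ℝ)
    have t2 : Tendsto (fun k => (m * C + m * 2 / (S.F k).n) * mass (res (l k).T.μ (fun ω => ¬ E k ω))) UF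
        (𝓝 ((m * C + 0) * 0)) := by
      apply Tendsto.mul _ hE
      exact Tendsto.add tendsto_const_nhds (S.div_n_tendsto _)
    have t3 := S.div_n_tendsto 1
    have t4 := (t1.add t2).add t3
    rw [mul_zero, mul_zero, add_zero, add_zero] at t4
    refine t4.congr fun k => ?_
    have hn := (S.F k).pos
    field_simp
  apply h0.of_le (Eventually.of_forall fun k => (l k).T.e_nonneg _ _)
  filter_upwards [hX, hB, hK.1] with k hk1 hk2 hk3
  have h1 := (l k).T.e_int_le_event (X k) (B k) (fun ω => ¬ E k ω) (K k) (2 * 2 ^ (C * (S.F k).n)) hk3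
    (by positivity) (fun ω ω' a b c d e => hk2 ω ω' a b (not_not.mp c) (not_not.mp d) e)
    (fun ω ω' a b _ _ _ i => by
      have e1 := abs_le.1 (hk1 ω i a)
      have e2 := abs_le.1 (hk1 ω' i b)
      rw [abs_le]
      constructor <;> linarith)
  have hp : (1 : ℝ) ≤ 2 ^ (C * (S.F k).n) :=
    Real.one_le_rpow (by norm_num) (mul_nonneg hC (S.F k).pos.le)
  have h2 : Real.logb 2 (2 * 2 ^ (C * (S.F k).n) + 1) ≤ C * (S.F k).n + 2 := by
    calc Real.logb 2 (2 * 2 ^ (C * (S.F k).n) + 1) ≤ Real.logb 2 (2 ^ (C * (S.F k).n) * 2 ^ (2 : ℝ)) :=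
          Real.logb_le_logb_of_le (by norm_num) (by positivity) (by
            have : (2 : ℝ) ^ (2 : ℝ) = 4 := by norm_num
            rw [this]; linarith)
      _ = _ := by rw [← Real.rpow_add (by norm_num : (0 : ℝ) < 2), Real.logb_rpow (by norm_num) (by norm_num)]
  have h3 : Real.logb 2 (K k + 1) ≤ Real.logb 2 (K k + 2) :=
    Real.logb_le_logb_of_le (by norm_num) (by linarith) (by linarith)
  have h4 : 0 ≤ mass (res (l k).T.μ (fun ω => ¬ E k ω)) := Sp.mass_res_nonneg (S := l.sp) k _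
  have h5 : (m : ℝ) * Real.logb 2 (2 * 2 ^ (C * (S.F k).n) + 1) * mass (res (l k).T.μ (fun ω => ¬ E k ω)) ≤
      m * (C * (S.F k).n + 2) * mass (res (l k).T.μ (fun ω => ¬ E k ω)) :=
    mul_le_mul_of_nonneg_right (mul_le_mul_of_nonneg_left h2 (Nat.cast_nonneg m)) h4
  have h6 : (m : ℝ) * Real.logb 2 (K k + 1) ≤ m * Real.logb 2 (K k + 2) :=
    mul_le_mul_of_nonneg_left h3 (Nat.cast_nonneg m)
  linarith

theorem mem_filt {α : Type} {p : α → Prop} {inst : DecidablePred p} {s : Finset α} {a : α}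
    (h : a ∈ @Finset.filter α p inst s) : a ∈ s ∧ p a := Finset.mem_filter.1 h

/-- variables with few values -/
theorem nul_card {S : Sp} (l : Lab S) {α : ℕ → Type} (X : ∀ k, (l k).T.Ω → α k) (B : ∀ k, Setoid (l k).T.Ω)
    (T : ∀ k, Finset (α k)) (K : ℕ → ℝ) (hK : S.Sub K) (hT : ∀ᶠ k in UF, ((T k).card : ℝ) ≤ K k)
    (hX : ∀ᶠ k in UF, ∀ ω, (l k).T.μ ω ≠ 0 → X k ω ∈ T k) :
    Nul S (fun k => (l k).T.e (Setoid.ker (X k)) (B k)) := by
  classical
  have h0 : Nul S (fun k => Real.logb 2 (K k + 2)) := hK.2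
  apply h0.of_le (Eventually.of_forall fun k => (l k).T.e_nonneg _ _)
  filter_upwards [hT, hX, hK.1] with k hk1 hk2 hk3
  have h1 := st_E3.1 (l k).T.Ω _ _ (l k).T.μ (X k) (Quotient.mk (B k)) (fun _ => (K k + 2)) (l k).T.nn (fun ω hω => by
    refine le_trans (Nat.cast_le.mpr (Finset.card_le_card (t := T k) ?_)) (by linarith)
    intro q hq
    obtain ⟨ω', hω', rfl⟩ := e3_mem_image hq
    exact hk2 ω' (mem_filt hω').2.1)
  have h4 : (l k).T.e (Setoid.ker (X k)) (B k) = CH (l k).T.μ (X k) (Quotient.mk (B k)) := by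
    apply (l k).T.e_congr
    · intro ω ω' _ _
      exact Iff.rfl
    · intro ω ω' _ _
      exact Quotient.eq.symm
  rw [h4]
  refine h1.trans (le_of_eq ?_)
  rw [← Finset.sum_mul]
  have : ∑ ω, (l k).T.μ ω = 1 := (l k).T.ms
  rw [this, one_mul]

end

end Pool.Agent.Helper59.LF
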