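import Pool.Agent.Helper59.LF.Add
import Pool.Agent.Helper31.EC.Vec
import Pool.Agent.Helper3.LF.Lin
import Mathlib.Analysis.Calculus.MeanValue
import Mathlib.Analysis.Calculus.Deriv.Polynomial

/-! The core of the lemma SPEED: the value of a bounded polynomial, known to a label, along the line, rounded to a
precision, can be added to the label without leaks. -/

namespace Pool.Agent.Helper59.LF

open Finset Filter Topology Pool.Agent.Helper69.RK Pool.Agent.Helper31.EC Pool.Agent.Helper40.EL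
open MvPolynomial Pool.Agent.Helper3.LF

noncomputable section

/-- mean value inequality for polynomials -/
theorem mvi (f : Polynomial ℝ) (u v M : ℝ)
    (h : ∀ s, |s - u| ≤ |v - u| → |(Polynomial.derivative f).eval s| ≤ M) :
    |f.eval v - f.eval u| ≤ M * |v - u| := by
  have h1 := Convex.norm_image_sub_le_of_norm_deriv_le (𝕜 := ℝ) (f := fun s => f.eval s) (C := M)
    (s := Set.uIcc u v) (x := u) (y := v) (fun s _ => f.differentiableAt) (fun s hs => by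
      rw [Polynomial.deriv, Real.norm_eq_abs]
      apply h s
      have h2 := Set.abs_sub_left_of_mem_uIcc hs
      exact h2) (convex_uIcc u v) Set.left_mem_uIcc Set.right_mem_uIcc
  rw [Real.norm_eq_abs, Real.norm_eq_abs] at h1
  exact h1

/-- mean value inequality in a box -/
theorem mvb {N : ℕ} (q : MvPolynomial (Fin N) ℝ) (p p' : Fin N → ℝ) (R M : ℝ) (hM : 0 ≤ M)
    (hp : ∀ j, |p' j - p j| ≤ R)
    (h : ∀ i, ∀ y : Fin N → ℝ, (∀ j, |y j - p j| ≤ R) → R * |eval y (pderiv i q)| ≤ M) :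
    |eval p' q - eval p q| ≤ N * M := by
  have h1 := mvi (lin p (fun j => p' j - p j) q) 0 1 (N * M) (fun s hs => by
    rw [deriv_lin, Polynomial.eval_finsetSum]
    refine (Finset.abs_sum_le_sum_abs _ _).trans ?_
    have e0 : ∀ i ∈ (Finset.univ : Finset (Fin N)),
        |(Polynomial.C (p' i - p i) * lin p (fun j => p' j - p j) (pderiv i q)).eval s| ≤ M := by
      intro i _
      rw [Polynomial.eval_mul, Polynomial.eval_C, abs_mul, eval_lin]
      have e1 := h i (fun k => p k + s * (p' k - p k)) (fun j => by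
        have e2 : p j + s * (p' j - p j) - p j = s * (p' j - p j) := by ring
        rw [e2, abs_mul]
        rw [sub_zero, sub_zero, abs_one] at hs
        calc |s| * |p' j - p j| ≤ 1 * |p' j - p j| := mul_le_mul_of_nonneg_right hs (abs_nonneg _)
          _ ≤ R := by rw [one_mul]; exact hp j)
      exact (mul_le_mul_of_nonneg_right (hp i) (abs_nonneg _)).trans e1
    refine (Finset.sum_le_sum e0).trans (le_of_eq ?_)
    rw [Finset.sum_const, Finset.card_univ, Fintype.card_fin, nsmul_eq_mul])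
  rw [eval_lin, eval_lin, sub_zero, abs_one, mul_one] at h1
  have e1 : (fun k => p k + 1 * (p' k - p k)) = p' := by
    funext k; ring
  have e2 : (fun k => p k + 0 * (p' k - p k)) = p := by
    funext k; ring
  rw [e1, e2] at h1
  exact h1

/-- the point of a line at height `t` -/
def pnt {m : ℕ} (a x : Fin m → ℝ) (t : ℝ) : Fin (m + 1) → ℝ := Fin.cons t (fun i => a i + t * x i)

theorem pnt_zero {m : ℕ} (a x : Fin m → ℝ) (t : ℝ) : pnt a x t 0 = t := rfl

theorem pnt_succ {m : ℕ} (a x : Fin m → ℝ) (t : ℝ) (i : Fin m) : pnt a x t i.succ = a i + t * x i := rfl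

theorem pnt_eq {m : ℕ} (a x : Fin m → ℝ) (t : ℝ) :
    pnt a x t = fun k => (Fin.cons 0 a : Fin (m + 1) → ℝ) k + t * (Fin.cons 1 x : Fin (m + 1) → ℝ) k := by
  funext k
  refine Fin.cases ?_ (fun i => ?_) k
  · rw [pnt_zero, Fin.cons_zero, Fin.cons_zero]; ring
  · rw [pnt_succ, Fin.cons_succ, Fin.cons_succ]

/-- the polynomial along the line -/
def alg {m : ℕ} (a x : Fin m → ℝ) (q : MvPolynomial (Fin (m + 1)) ℝ) : Polynomial ℝ :=
  lin (Fin.cons 0 a : Fin (m + 1) → ℝ) (Fin.cons 1 x : Fin (m + 1) → ℝ) q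

theorem eval_alg {m : ℕ} (a x : Fin m → ℝ) (q : MvPolynomial (Fin (m + 1)) ℝ) (t : ℝ) :
    (alg a x q).eval t = eval (pnt a x t) q := by
  unfold alg
  rw [eval_lin, pnt_eq]

/-- two points: heights `t`, `t'` of two lines -/
theorem two_lines {m : ℕ} (q : MvPolynomial (Fin (m + 1)) ℝ) (a x a' x' : Fin m → ℝ) (t t' δ η R M L : ℝ)
    (hδ : 0 ≤ δ) (hM : 0 ≤ M) (hL : 0 ≤ L)
    (h0 : ∀ i, |a i - a' i| ≤ δ) (h1 : ∀ i, |x i - x' i| ≤ δ) (h2 : |t' - t| ≤ η) (hR : δ * (1 + |t'|) ≤ R)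
    (hc : ∀ i, ∀ y : Fin (m + 1) → ℝ, (∀ j, |y j - pnt a' x' t' j| ≤ R) → R * |eval y (pderiv i q)| ≤ M)
    (hl : ∀ s, |s - t| ≤ η → |(Polynomial.derivative (alg a x q)).eval s| ≤ L) :
    |eval (pnt a' x' t') q - eval (pnt a x t) q| ≤ L * η + (m + 1) * M := by
  have hR0 : 0 ≤ R := le_trans (mul_nonneg hδ (by positivity)) hR
  have h3 := mvb q (pnt a' x' t') (pnt a x t') R M hM (by
    intro j
    refine Fin.cases ?_ (fun i => ?_) j
    · rw [pnt_zero, pnt_zero, sub_self, abs_zero]; exact hR0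
    · rw [pnt_succ, pnt_succ]
      have e1 : a i + t' * x i - (a' i + t' * x' i) = (a i - a' i) + t' * (x i - x' i) := by ring
      rw [e1]
      refine (abs_add_le _ _).trans ?_
      rw [abs_mul]
      have e2 := mul_le_mul_of_nonneg_left (h1 i) (abs_nonneg t')
      have e3 := h0 i
      nlinarith) hc
  have h4 := mvi (alg a x q) t t' L (fun s hs => hl s (hs.trans h2))
  rw [eval_alg, eval_alg] at h4
  have h5 : L * |t' - t| ≤ L * η := mul_le_mul_of_nonneg_left h2 hL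
  push_cast at h3
  have h6 : eval (pnt a' x' t') q - eval (pnt a x t) q =
      -(eval (pnt a x t') q - eval (pnt a' x' t') q) + (eval (pnt a x t') q - eval (pnt a x t) q) := by ring
  rw [h6]
  refine (abs_add_le _ _).trans ?_
  rw [abs_neg]
  linarith

open Classical in
/-- truncated integer part -/
def tfl (M z : ℝ) : ℤ := if |z| ≤ M then ⌊z⌋ else 0

theorem tfl_le (M z : ℝ) (hM : 0 ≤ M) : |(tfl M z : ℝ)| ≤ M + 1 := by
  unfold tfl
  by_cases h : |z| ≤ M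
  · rw [if_pos h]
    have h1 := Int.floor_le z
    have h2 := Int.lt_floor_add_one z
    have h3 := abs_le.1 h
    rw [abs_le]
    constructor <;> linarith
  · rw [if_neg h, Int.cast_zero, abs_zero]
    linarith

theorem tfl_eq (M z : ℝ) (h : |z| ≤ M) : tfl M z = ⌊z⌋ := by
  unfold tfl
  rw [if_pos h]

/-- THE CORE OF SPEED -/
theorem speed_core {S : Sp} {m : ℕ} (a x : S.VV m) (t : S.VV 1) (c' : ℝ) (l : Lab S) {A B : Part S}
    (hl : l.DM A B)
    (hA : ∀ᶠ k in UF, fc (Setoid.ker (fun ω => (a.cellv 1 k ω, x.cellv 1 k ω, t.cellv c' k ω))) ≤ A k)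
    (hB : ∀ᶠ k in UF, fc (Setoid.ker (fun ω => ((Sp.VV.pt a x t).cellv 1 k ω, t.cellv 1 k ω))) ≤ B k)
    (q : ∀ k, (l k).T.Ω → MvPolynomial (Fin (m + 1)) ℝ) (ρ : ∀ k, (l k).T.Ω → ℝ)
    (hV : ∀ᶠ k in UF, ∀ ω ω', (l k).T.μ ω ≠ 0 → (l k).T.μ ω' ≠ 0 → (l k).V ω ω' → (l k).T.Z ω ω' →
      q k ω = q k ω' ∧ ρ k ω = ρ k ω')
    (C : ℝ) (hC : 0 ≤ C)
    (hρ : ∀ᶠ k in UF, ∀ ω, (l k).T.μ ω ≠ 0 → (2 : ℝ) ^ (-(C * (S.F k).n)) ≤ ρ k ω)
    (E : ∀ k, (l k).T.Ω → Prop) (hE : Sp.Typ (S := l.sp) E) (K R : ℕ → ℝ) (hK : S.Sub K)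
    (hR : ∀ᶠ k in UF, ∀ ω, (S.F k).μ ω ≠ 0 → 1 + |t.v k ω 0| ≤ R k)
    (hb : ∀ᶠ k in UF, ∀ ω, (l k).T.μ ω ≠ 0 → E k ω →
      |eval (pnt (a.v k ((l k).p.π ω)) (x.v k ((l k).p.π ω)) (t.v k ((l k).p.π ω) 0)) (q k ω)| ≤ K k ∧
      (∀ i, ∀ y : Fin (m + 1) → ℝ,
        (∀ j, |y j - pnt (a.v k ((l k).p.π ω)) (x.v k ((l k).p.π ω)) (t.v k ((l k).p.π ω) 0) j| ≤
          R k * S.dl 1 k) → R k * S.dl 1 k * |eval y (pderiv i (q k ω))| ≤ K k * ρ k ω) ∧
      (∀ s, |s - t.v k ((l k).p.π ω) 0| ≤ S.dl c' k →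
        |(Polynomial.derivative (alg (a.v k ((l k).p.π ω)) (x.v k ((l k).p.π ω)) (q k ω))).eval s| *
          S.dl c' k ≤ K k * ρ k ω)) :
    ∃ U : ∀ k, (l k).T.Ω → ℤ, (ladd l (fun k => Setoid.ker (U k))).DM A B ∧
      (∀ᶠ k in UF, ∀ ω, |(U k ω : ℝ)| ≤ 2 ^ ((C + 2) * (S.F k).n)) ∧
      ∀ᶠ k in UF, ∀ ω, (l k).T.μ ω ≠ 0 → E k ω →
        |eval (pnt (a.v k ((l k).p.π ω)) (x.v k ((l k).p.π ω)) (t.v k ((l k).p.π ω) 0)) (q k ω) -
          ρ k ω * U k ω| ≤ ρ k ω := by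
  classical
  set P : ∀ k, (l k).T.Ω → Fin (m + 1) → ℝ := fun k ω =>
    pnt (a.v k ((l k).p.π ω)) (x.v k ((l k).p.π ω)) (t.v k ((l k).p.π ω) 0) with hP
  set U : ∀ k, (l k).T.Ω → ℤ := fun k ω =>
    tfl (2 ^ ((C + 1) * (S.F k).n)) (eval (P k ω) (q k ω) / ρ k ω) with hU
  -- bounds
  have hUb : ∀ᶠ k in UF, ∀ ω, |(U k ω : ℝ)| ≤ 2 ^ ((C + 2) * (S.F k).n) := by
    filter_upwards [S.eventually_le_two_pow 2] with k hk ω
    have h1 := tfl_le (2 ^ ((C + 1) * (S.F k).n)) (eval (P k ω) (q k ω) / ρ k ω) (by positivity)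
    have h2 : (1 : ℝ) ≤ 2 ^ ((C + 1) * (S.F k).n) :=
      Real.one_le_rpow (by norm_num) (mul_nonneg (by linarith) (S.F k).pos.le)
    have h3 : (2 : ℝ) ^ ((C + 2) * (S.F k).n) = 2 ^ ((C + 1) * (S.F k).n) * 2 ^ ((S.F k).n) := by
      rw [← Real.rpow_add (by norm_num : (0 : ℝ) < 2)]
      congr 1; ring
    rw [h3]
    refine h1.trans ?_
    nlinarith
  -- on the typical event
  have hUE : ∀ᶠ k in UF, ∀ ω, (l k).T.μ ω ≠ 0 → E k ω →
      U k ω = ⌊eval (P k ω) (q k ω) / ρ k ω⌋ := by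
    filter_upwards [hb, hρ, hK.eventually_le one_pos, hK.1] with k h1 h2 h3 h4 ω h5 h6
    apply tfl_eq
    have h7 := (h1 ω h5 h6).1
    have h8 := h2 ω h5
    have h9 : (0 : ℝ) < 2 ^ (-(C * (S.F k).n)) := by positivity
    have h10 : 0 < ρ k ω := lt_of_lt_of_le h9 h8
    rw [abs_div, abs_of_pos h10, div_le_iff₀ h10]
    have h11 : (2 : ℝ) ^ ((C + 1) * (S.F k).n) * 2 ^ (-(C * (S.F k).n)) = 2 ^ (1 * (S.F k).n) := by
      rw [← Real.rpow_add (by norm_num : (0 : ℝ) < 2)]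
      congr 1; ring
    have h12 : (2 : ℝ) ^ ((C + 1) * (S.F k).n) * 2 ^ (-(C * (S.F k).n)) ≤
        2 ^ ((C + 1) * (S.F k).n) * ρ k ω := mul_le_mul_of_nonneg_left h8 (by positivity)
    calc |eval (P k ω) (q k ω)| ≤ K k := h7
      _ ≤ 2 ^ (1 * (S.F k).n) := by linarith
      _ ≤ _ := by rw [← h11]; exact h12
  have hρ0 : ∀ᶠ k in UF, ∀ ω, (l k).T.μ ω ≠ 0 → 0 < ρ k ω := by
    filter_upwards [hρ] with k h1 ω h2
    exact lt_of_lt_of_le (by positivity) (h1 ω h2)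
  -- rounding from closeness
  have hcl : ∀ᶠ k in UF, ∀ ω ω' : (l k).T.Ω, (l k).T.μ ω ≠ 0 → (l k).T.μ ω' ≠ 0 → E k ω → E k ω' →
      q k ω = q k ω' → ρ k ω = ρ k ω' → ∀ L : ℝ, |eval (P k ω) (q k ω) - eval (P k ω') (q k ω)| ≤ L * ρ k ω →
      |(U k ω : ℝ) - U k ω'| ≤ L + 1 := by
    filter_upwards [hUE, hρ0] with k h1 h2 ω ω' h3 h4 h5 h6 h7 h8 L h9
    rw [h1 ω h3 h5, h1 ω' h4 h6, ← h8, ← h7]
    exact Sp.floor_diff (h2 ω h3) h9
  refine ⟨U, ?_, hUb, ?_⟩
  · have hUX : ∀ k, Setoid.ker (U k) = Setoid.ker (fun ω => (fun _ => U k ω : Fin 1 → ℤ)) := by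
      intro k
      ext ω ω'
      constructor
      · intro h
        have h' : U k ω = U k ω' := h
        show (fun _ => U k ω : Fin 1 → ℤ) = fun _ => U k ω'
        rw [h']
      · intro h
        exact congrFun h 0
    have hnul : ∀ W : ∀ k, Setoid (S.F k).Ω, (∀ᶠ k in UF, ∀ ω ω' : (l k).T.Ω, (l k).T.μ ω ≠ 0 →
        (l k).T.μ ω' ≠ 0 → E k ω → E k ω' → q k ω = q k ω' → ρ k ω = ρ k ω' →
        W k ((l k).p.π ω) ((l k).p.π ω') →
        |eval (P k ω) (q k ω) - eval (P k ω') (q k ω)| ≤ ((m + 2) * K k) * ρ k ω) →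
        Nul S (fun k => h (fc (Setoid.ker (U k))) ((l k).v ⊔ (l k).p.map (fc (W k)))) := by
      intro W hW
      have h1 : (fun k => h (fc (Setoid.ker (U k))) ((l k).v ⊔ (l k).p.map (fc (W k)))) =
          fun k => (l k).T.e (Setoid.ker (fun ω => (fun _ => U k ω : Fin 1 → ℤ)))
            (((l k).V ⊓ Setoid.comap (l k).p.π (W k)) ⊓ (l k).T.Z) := by
        funext k
        rw [h_label, hUX]
      rw [h1]
      apply nul_few l (fun k ω => (fun _ => U k ω : Fin 1 → ℤ)) _ (C + 2) (by linarith)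
        (by filter_upwards [hUb] with k hk ω _ _ using hk ω) E hE (fun k => (m + 2) * K k + 1)
        (((S.Sub_const (K := (m + 2 : ℝ)) (by positivity)).mul hK).add (S.Sub_const zero_le_one))
      filter_upwards [hcl, hW, hV] with k h2 h3 h4 ω ω' h5 h6 h7 h8 h9 i
      obtain ⟨⟨e1, e2⟩, e3⟩ := h9
      obtain ⟨e4, e5⟩ := h4 ω ω' h5 h6 e1 e3
      exact h2 ω ω' h5 h6 h7 h8 e4 e5 _ (h3 ω ω' h5 h6 h7 h8 e4 e5 e2)
    have hnA := hnul (fun k => Setoid.ker (fun ω => (a.cellv 1 k ω, x.cellv 1 k ω, t.cellv c' k ω))) (by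
      filter_upwards [hb, hρ0, hR, hK.1] with k h1 h2 h3 h4 ω ω' h5 h6 h7 h8 h9 h10 h11
      have h12 : (a.cellv 1 k ((l k).p.π ω), x.cellv 1 k ((l k).p.π ω), t.cellv c' k ((l k).p.π ω)) =
        (a.cellv 1 k ((l k).p.π ω'), x.cellv 1 k ((l k).p.π ω'), t.cellv c' k ((l k).p.π ω')) := h11
      rw [Prod.mk.injEq, Prod.mk.injEq] at h12
      obtain ⟨d1, d2, d3⟩ := h12
      have hs := (l k).p.supp ω' h6
      have c1 : ∀ i, |a.v k ((l k).p.π ω) i - a.v k ((l k).p.π ω') i| ≤ S.dl 1 k := fun i =>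
        a.cellv_close 1 k _ _ d1 i
      have c2 : ∀ i, |x.v k ((l k).p.π ω) i - x.v k ((l k).p.π ω') i| ≤ S.dl 1 k := fun i =>
        x.cellv_close 1 k _ _ d2 i
      have c3 : |t.v k ((l k).p.π ω') 0 - t.v k ((l k).p.π ω) 0| ≤ S.dl c' k := by
        rw [abs_sub_comm]
        exact t.cellv_close c' k _ _ d3 0
      have hdl := S.dl_pos 1 k
      have hdc := S.dl_pos c' k
      have c4 := two_lines (q k ω) (a.v k ((l k).p.π ω)) (x.v k ((l k).p.π ω)) (a.v k ((l k).p.π ω'))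
        (x.v k ((l k).p.π ω')) (t.v k ((l k).p.π ω) 0) (t.v k ((l k).p.π ω') 0) (S.dl 1 k) (S.dl c' k)
        (R k * S.dl 1 k) (K k * ρ k ω) (K k * ρ k ω / S.dl c' k) hdl.le (mul_nonneg h4 (h2 ω h5).le)
        (div_nonneg (mul_nonneg h4 (h2 ω h5).le) hdc.le) c1 c2 c3 (by
          rw [mul_comm]
          exact mul_le_mul_of_nonneg_right (h3 _ hs) hdl.le) (by
          intro i y hy
          have := (h1 ω' h6 h8).2.1 i y hy
          rw [← h9, ← h10] at this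
          exact this) (by
          intro s hs
          rw [le_div_iff₀ hdc]
          exact (h1 ω h5 h7).2.2 s hs)
      rw [div_mul_cancel₀ _ hdc.ne', abs_sub_comm] at c4
      refine c4.trans (le_of_eq ?_)
      ring)
    have hnB := hnul (fun k => Setoid.ker (fun ω => ((Sp.VV.pt a x t).cellv 1 k ω, t.cellv 1 k ω))) (by
      filter_upwards [hb, hρ0, hR, hK.1] with k h1 h2 h3 h4 ω ω' h5 h6 h7 h8 h9 h10 h11
      have h12 : ((Sp.VV.pt a x t).cellv 1 k ((l k).p.π ω), t.cellv 1 k ((l k).p.π ω)) =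
        ((Sp.VV.pt a x t).cellv 1 k ((l k).p.π ω'), t.cellv 1 k ((l k).p.π ω')) := h11
      rw [Prod.mk.injEq] at h12
      obtain ⟨d1, d2⟩ := h12
      have hs := (l k).p.supp ω h5
      have hdl := S.dl_pos 1 k
      have hR1 : 1 ≤ R k := by
        have := h3 _ hs
        have e0 := abs_nonneg (t.v k ((l k).p.π ω) 0)
        linarith
      have c1 : ∀ j, |P k ω' j - P k ω j| ≤ R k * S.dl 1 k := by
        intro j
        have e1 : S.dl 1 k ≤ R k * S.dl 1 k := by nlinarith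
        refine Fin.cases ?_ (fun i => ?_) j
        · rw [abs_sub_comm]
          exact (t.cellv_close 1 k _ _ d2 0).trans e1
        · rw [abs_sub_comm]
          exact ((Sp.VV.pt a x t).cellv_close 1 k _ _ d1 i).trans e1
      have c2 := mvb (q k ω) (P k ω) (P k ω') (R k * S.dl 1 k) (K k * ρ k ω) (mul_nonneg h4 (h2 ω h5).le)
        c1 (h1 ω h5 h7).2.1
      rw [abs_sub_comm] at c2
      refine c2.trans ?_
      push_cast
      have e2 := mul_nonneg h4 (h2 ω h5).le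
      nlinarith)
    apply DM_ladd hl
    · apply hnA.of_le (Eventually.of_forall fun k => h_nonneg _ _)
      filter_upwards [hA] with k hk
      exact h_anti (sup_le_sup_left ((l k).p.map_mono hk) _)
    · apply hnB.of_le (Eventually.of_forall fun k => h_nonneg _ _)
      filter_upwards [hB] with k hk
      exact h_anti (sup_le_sup_left ((l k).p.map_mono hk) _)
  · filter_upwards [hUE, hρ0] with k h1 h2 ω h3 h4
    have h5 := h2 ω h3
    rw [h1 ω h3 h4]
    have h6 := Int.floor_le (eval (P k ω) (q k ω) / ρ k ω)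
    have h7 := Int.lt_floor_add_one (eval (P k ω) (q k ω) / ρ k ω)
    rw [le_div_iff₀ h5] at h6
    rw [div_lt_iff₀ h5] at h7
    rw [abs_le]
    constructor <;> nlinarith

end

end Pool.Agent.Helper59.LF
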